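import Mathlib
import Pool.Agent.H4.QOne

/-!
The first identity between binary exponential sums: for every odd n and every k >= 1 coprime
to n, the sum over nonzero x in a field with 2^n elements of (-1)^Tr(x^(2^k+1) + x^(-1)) equals the
sum of (-1)^Tr(x^3 + x^(-1)).
-/

namespace Pool.Agent.Results.MP_2c585b_nt.IdentityQ1

/-- The absolute trace `Tr(x) = x + x^2 + x^4 + ... + x^(2^(n-1))`. -/
def Tr {F : Type*} [Field F] (n : ℕ) (x : F) : F := ∑ i ∈ Finset.range n, x ^ (2 ^ i)

/-- The sign `(-1)^Tr(x)`: it is `1` if `Tr(x) = 0` and `-1` otherwise (then `Tr(x) = 1`). -/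
def sgn {F : Type*} [Field F] [DecidableEq F] (n : ℕ) (x : F) : ℤ :=
  if Tr n x = 0 then 1 else -1

open Pool.Agent.H4 in
/-- The first identity, for every odd `n` and every positive `k` coprime to `n`. -/
theorem result (n k : ℕ) (hn : Odd n) (_hk : 0 < k) (hkn : Nat.Coprime k n)
    (F : Type*) [Field F] [Fintype F] [DecidableEq F] (hF : Fintype.card F = 2 ^ n) :
    ∑ x ∈ Finset.univ.erase (0 : F), sgn n (x ^ (2 ^ k + 1) + x⁻¹)
      = ∑ x ∈ Finset.univ.erase (0 : F), sgn n (x ^ 3 + x⁻¹) := by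
  have hn0 : 0 < n := hn.pos
  have htwo : (2 : F) = 0 := by
    have h1 : ((Fintype.card F : ℕ) : F) = 0 := Nat.cast_card_eq_zero F
    rw [hF, Nat.cast_pow] at h1
    exact pow_eq_zero_iff hn0.ne' |>.mp (by exact_mod_cast h1)
  have hchar : CharP F 2 := CharTwo.of_one_ne_zero_of_two_eq_zero one_ne_zero htwo
  rcases Nat.lt_or_ge n 3 with hlt | hge
  · -- `n = 1`
    have hn1 : n = 1 := by
      obtain ⟨m, hm⟩ := hn
      omega
    subst hn1
    refine Finset.sum_congr rfl fun x hx => ?_
    have hx0 : x ≠ 0 := Finset.ne_of_mem_erase hx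
    have h1 : x ^ 2 = x := by
      have := FiniteField.pow_card x
      rwa [hF, pow_one] at this
    have h2 : x = 1 := by
      have : x * (x - 1) = 0 := by linear_combination h1
      rcases mul_eq_zero.mp this with h | h
      · exact absurd h hx0
      · linear_combination h
    rw [h2]
    simp
  · obtain ⟨m, hm⟩ := hn
    obtain ⟨N, rfl⟩ : ∃ N, n = N + 2 := ⟨n - 2, by omega⟩
    have hN : 0 < N := by omega
    have core := q1_core (F := F) (m := m) (k := k) hm hN hkn hF
    have conv : ∀ e : ℕ, ∑ x ∈ Finset.univ.erase (0 : F), sgn (N + 2) (x ^ e + x⁻¹)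
        = ∑ a : {a : F // a ≠ 0}, if tr (N + 2) (a.1⁻¹ ^ e + a.1) = 0 then (1 : ℤ) else -1 := by
      intro e
      refine Finset.sum_bij' (fun x hx => ⟨x⁻¹, inv_ne_zero (Finset.ne_of_mem_erase hx)⟩)
        (fun a _ => a.1⁻¹) ?_ ?_ ?_ ?_ ?_
      · intro x _; exact Finset.mem_univ _
      · intro a _
        exact Finset.mem_erase.mpr ⟨inv_ne_zero a.2, Finset.mem_univ _⟩
      · intro x _; exact inv_inv x
      · intro a _; exact Subtype.ext (inv_inv a.1)
      · intro x _
        simp only [inv_inv]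
        rfl
    rw [conv, conv 3]
    exact core

end Pool.Agent.Results.MP_2c585b_nt.IdentityQ1
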