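import Mathlib
import Pool.Agent.H4.QTwoD

/-!
The second identity between binary exponential sums: for every odd n and every k >= 1 coprime
to n, the sum over nonzero x in a field with 2^n elements of (-1)^Tr(x + x^(-1)) equals the sum
over nonzero v of (-1)^Tr(R_k(v)), R_k(v) = (v^(2^k) + 1) v^(2^k) / (v^(2^k) + v)^(2^k + 1).
-/

namespace Pool.Agent.Results.MP_2c585b_nt.IdentityQ2

/-- The absolute trace `Tr(x) = x + x^2 + x^4 + ... + x^(2^(n-1))`. -/
def Tr {F : Type*} [Field F] (n : ℕ) (x : F) : F := ∑ i ∈ Finset.range n, x ^ (2 ^ i)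

/-- The sign `(-1)^Tr(x)`: it is `1` if `Tr(x) = 0` and `-1` otherwise (then `Tr(x) = 1`). -/
def sgn {F : Type*} [Field F] [DecidableEq F] (n : ℕ) (x : F) : ℤ :=
  if Tr n x = 0 then 1 else -1

/-- The rational expression `R_k(v)`, with `y / 0 = 0`. -/
def R {F : Type*} [Field F] (k : ℕ) (v : F) : F :=
  (v ^ (2 ^ k) + 1) * v ^ (2 ^ k) / (v ^ (2 ^ k) + v) ^ (2 ^ k + 1)

open Pool.Agent.H4 in
/-- The second identity, for every odd `n` and every positive `k` coprime to `n`. -/
theorem result (n k : ℕ) (hn : Odd n) (_hk : 0 < k) (hkn : Nat.Coprime k n)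
    (F : Type*) [Field F] [Fintype F] [DecidableEq F] (hF : Fintype.card F = 2 ^ n) :
    ∑ x ∈ Finset.univ.erase (0 : F), sgn n (x + x⁻¹)
      = ∑ v ∈ Finset.univ.erase (0 : F), sgn n (R k v) := by
  have hn0 : 0 < n := hn.pos
  have htwo : (2 : F) = 0 := by
    have h1 : ((Fintype.card F : ℕ) : F) = 0 := Nat.cast_card_eq_zero F
    rw [hF, Nat.cast_pow] at h1
    exact pow_eq_zero_iff hn0.ne' |>.mp (by exact_mod_cast h1)
  have hchar : CharP F 2 := CharTwo.of_one_ne_zero_of_two_eq_zero one_ne_zero htwo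
  rcases Nat.lt_or_ge n 3 with hlt | hge
  · -- `n = 1`
    have hn1 : n = 1 := by
      obtain ⟨m, hm⟩ := hn
      omega
    subst hn1
    refine Finset.sum_congr rfl fun x hx => ?_
    have hx0 : x ≠ 0 := Finset.ne_of_mem_erase hx
    have h1 : x ^ 2 = x := by
      have := FiniteField.pow_card x
      rwa [hF, pow_one] at this
    have h2 : x = 1 := by
      have : x * (x - 1) = 0 := by linear_combination h1
      rcases mul_eq_zero.mp this with h | h
      · exact absurd h hx0
      · linear_combination h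
    rw [h2, show R k (1 : F) = 0 from Rk_one k, inv_one, CharTwo.add_self_eq_zero (1 : F)]
  · obtain ⟨m, hm⟩ := hn
    obtain ⟨N, rfl⟩ : ∃ N, n = N + 2 := ⟨n - 2, by omega⟩
    have hN : 0 < N := by omega
    exact ((T_indep (F := F) hm hN hkn hF).trans (T_one (F := F) (N + 2))).symm

end Pool.Agent.Results.MP_2c585b_nt.IdentityQ2
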